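import Pool.Agent.H46.RF.Stm

/-! Crew RF, part CHK: check names. -/

set_option autoImplicit false

namespace H33.RF

open ZFSet (pair)
open Pool.Agent.W868
open MeasureTheory H14.ES H46.RF

/-- the step of the recursion -/
noncomputable def ckG (p : ZFSet.{0}) (_z g : ZFSet.{0}) : ZFSet.{0} := im (fun t => pair (sn t) p) g

/-- check names -/
noncomputable def ck (p : ZFSet.{0}) : ZFSet.{0} → ZFSet.{0} :=
  wfF (fun z => z) ZFSet.mem_wf (ckG p)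

theorem ck_eq (p z : ZFSet.{0}) : ck p z = ckG p z (gr (ck p) z) :=
  wfF_eq (fun z => z) ZFSet.mem_wf (ckG p) z

theorem mem_ck {p z y : ZFSet.{0}} : y ∈ ck p z ↔ ∃ u ∈ z, y = pair (ck p u) p := by
  rw [ck_eq, ckG, mem_im]
  constructor
  · rintro ⟨q, hq, rfl⟩
    obtain ⟨u, hu, rfl⟩ := mem_gr.1 hq
    exact ⟨u, hu, by rw [sn_pair]⟩
  · rintro ⟨u, hu, rfl⟩
    exact ⟨_, mem_gr.2 ⟨u, hu, rfl⟩, by rw [sn_pair]⟩

theorem dfn_ck {M : Set ZFSet.{0}} (hM : IsZF M) {p : ZFSet.{0}} (hp : p ∈ M) :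
    DfnF M M (fun w : Fin 1 → ZFSet.{0} => ck p (w 0)) := by
  refine hM.memrec (G := ckG p) ?_ (ck_eq p)
  unfold ckG
  exact hM.im' (F := fun w : Fin 2 → ZFSet.{0} => w 1) (DfnF.proj 1)
    (h := fun t _ => pair (sn t) p) (hM.base.pair' (hM.sn' (DfnF.proj 0)) (DfnF.const hp))

theorem ev_ck {p : ZFSet.{0}} {G : Set ZFSet.{0}} (hp : p ∈ G) (x : ZFSet.{0}) :
    ev G (ck p x) = x := by
  induction x using ZFSet.inductionOn with
  | _ x ih =>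
  ext z
  rw [mem_ev]
  constructor
  · rintro ⟨y, q, h1, h2, rfl⟩
    obtain ⟨u, hu, h3⟩ := mem_ck.1 h1
    obtain ⟨rfl, rfl⟩ := ZFSet.pair_inj.1 h3
    rw [ih u hu]
    exact hu
  · intro hz
    exact ⟨ck p z, p, mem_ck.2 ⟨z, hz, rfl⟩, hp, ih z hz⟩

theorem chk : S_CHK := fun _ hM p hp =>
  ⟨ck p, dfn_ck hM hp, fun _ hG x _ => ev_ck hG x⟩

end H33.RF
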