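import Pool.Agent.H46.RF.Stm

/-!
Part DEN of the crew RF (`MP_9214e0_lc`): dense sets are met almost everywhere.
-/

set_option autoImplicit false

namespace H33.RF

open ZFSet (pair)
open Pool.Agent.W868
open MeasureTheory H14.ES H46.RF

theorem cyl_congr {r r' : ℕ → Bool} {k : ℕ} (h : ∀ i < k, r i = r' i) : cyl r k = cyl r' k := by
  ext x
  simp only [cyl, Set.mem_ofPred_eq]
  constructor
  · intro hx i hi
    rw [hx i hi, h i hi]
  · intro hx i hi
    rw [hx i hi, h i hi]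

theorem bad_congr {D : ZFSet.{0}} {r r' : ℕ → Bool} {k : ℕ} (h : ∀ i < k, r i = r' i) :
    Bad D r k ↔ Bad D r' k := by
  simp only [Bad, Half, cyl_congr h]

theorem den (hW : S_WRD) (hB : S_BMS) (h1 : S_DM1) (h2 : S_DM2) (h3 : S_DM3) (hT : S_TST) :
    S_DEN := by
  intro M hM hMc D hD hDP hdense
  obtain ⟨hlm, hbm, hbi, hdec, -, hcm, -⟩ := hB
  -- the union
  set U : Set (ℕ → Bool) := {r | ∃ T ∈ D, r ∈ body T} with hU
  have hUe : U = ⋃ T ∈ {T : ZFSet.{0} | T ∈ D}, body T := by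
    ext r
    simp [hU]
  have hcount : {T : ZFSet.{0} | T ∈ D}.Countable := hMc.mono fun T hT => (hDP T hT).1
  have hUm : MeasurableSet U := by
    rw [hUe]
    exact MeasurableSet.biUnion hcount fun T _ => hbm T
  suffices h : mu ℕ Uᶜ = 0 by
    exact h
  by_contra hne
  have hex : ∃ σ s, 4 * mu ℕ (cyl σ s ∩ U) < mu ℕ (cyl σ s) := by
    by_contra hno
    push Not at hno
    exact hne (h1 U hUm hno)
  obtain ⟨σ, s, hσ⟩ := hex
  obtain ⟨T', hT'M, hT'⟩ := hT M hM D hD σ s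
  have hmem : ∀ r n, ini r n ∈ T' ↔ (∀ i, i < n → i < s → r i = σ i) ∧
      ∀ k, s ≤ k → k ≤ n → ¬ Bad D r k := by
    intro r n
    rw [hT']
    constructor
    · rintro ⟨r', n', he, ha, hb⟩
      obtain ⟨rfl, hr⟩ := (hW.2.2.1 r r' n n').1 he
      refine ⟨fun i hi his => (hr i hi).trans (ha i hi his), fun k hk hkn hbad => ?_⟩
      exact hb k hk hkn ((bad_congr fun i hi => hr i (lt_of_lt_of_le hi hkn)).1 hbad)
    · rintro ⟨ha, hb⟩
      exact ⟨r, n, rfl, ha, hb⟩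
  have hT'tree : IsTree T' := by
    refine ⟨fun z hz => ?_, fun r n hr => ?_⟩
    · obtain ⟨r, n, he, -⟩ := (hT' z).1 hz
      exact ⟨r, n, he⟩
    · rw [hmem] at hr ⊢
      exact ⟨fun i hi his => hr.1 i (Nat.lt_succ_of_lt hi) his,
        fun k hk hkn => hr.2 k hk (Nat.le_succ_of_le hkn)⟩
  -- the bad set
  set B : Set (ℕ → Bool) :=
    {r | r ∈ cyl σ s ∧ ∃ k, s ≤ k ∧ mu ℕ (cyl r k) ≤ 2 * mu ℕ (cyl r k ∩ U)} with hBdef
  have hBm : mu ℕ B < mu ℕ (cyl σ s) := by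
    refine lt_of_le_of_lt (h2 U hUm σ s) (lt_of_le_of_lt ?_ hσ)
    exact mul_le_mul_left (by norm_num) _
  have hbadU : ∀ r k, Bad D r k → mu ℕ (cyl r k) ≤ 2 * mu ℕ (cyl r k ∩ U) := by
    rintro r k ⟨T, hTD, hTm⟩
    have htree := (hDP T hTD).2.1
    have hlim : Filter.Tendsto (fun m => 2 * mu ℕ (cyl r k ∩ lev T m)) Filter.atTop
        (nhds (2 * mu ℕ (⋂ m, (cyl r k ∩ lev T m)))) := by
      refine ENNReal.Tendsto.const_mul ?_ (Or.inr (by norm_num))
      refine tendsto_measure_iInter_atTop (fun m => ((hcm r k).inter (hlm T m)).nullMeasurableSet)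
        (fun m n hmn => Set.inter_subset_inter_right _ (hdec T htree m n hmn)) ⟨0, ?_⟩
      exact measure_ne_top _ _
    have hge : mu ℕ (cyl r k) ≤ 2 * mu ℕ (⋂ m, (cyl r k ∩ lev T m)) := by
      refine ge_of_tendsto hlim ?_
      filter_upwards [Filter.eventually_ge_atTop k] with m hm
      exact hTm m hm
    refine hge.trans (mul_le_mul_right (measure_mono ?_) _)
    rw [← Set.inter_iInter, ← hbi T]
    exact Set.inter_subset_inter_right _ fun x hx => ⟨T, hTD, hx⟩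
  have hsub : cyl σ s \ B ⊆ body T' := by
    rintro r ⟨hr, hrB⟩ n
    rw [hmem]
    refine ⟨fun i _ his => hr i his, fun k hk _ hbad => ?_⟩
    exact hrB ⟨hr, k, hk, hbadU r k hbad⟩
  have hpos : 0 < mu ℕ (body T') := by
    refine lt_of_lt_of_le ?_ (measure_mono hsub)
    rw [pos_iff_ne_zero]
    intro h0
    have : mu ℕ (cyl σ s) ≤ mu ℕ B := by
      calc mu ℕ (cyl σ s) ≤ mu ℕ ((cyl σ s \ B) ∪ B) := measure_mono (by
            intro x hx
            by_cases hxB : x ∈ B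
            · exact Or.inr hxB
            · exact Or.inl ⟨hx, hxB⟩)
        _ ≤ mu ℕ (cyl σ s \ B) + mu ℕ B := measure_union_le _ _
        _ = mu ℕ B := by rw [h0, zero_add]
    exact absurd hBm (not_lt.2 this)
  obtain ⟨T, hTD, hTT'⟩ := hdense T' ⟨hT'M, hT'tree, hpos⟩
  obtain ⟨-, hTtree, hTpos⟩ := hDP T hTD
  obtain ⟨r, n, hsn, hrn, hhalf⟩ := h3 T hTtree hTpos s
  have := (hmem r n).1 (hTT' hrn)
  exact this.2 n hsn le_rfl ⟨T, hTD, hhalf⟩

end H33.RF
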