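import Pool.Agent.H46.RF.Stm

/-! Crew RF, part REA: the real is in the extension. -/

set_option autoImplicit false

namespace H33.RF

open ZFSet (pair)
open Pool.Agent.W868
open MeasureTheory H14.ES H46.RF

theorem rea (hW : S_WRD) (hC : S_CHK) (hB : S_BMS) : S_REA := by
  intro M hM r
  obtain ⟨w1, w2, w3, w4, w5, w6⟩ := hW
  obtain ⟨wM, bM, ⟨Wd, hWd, hWd'⟩, -⟩ := w6 M hM
  obtain ⟨-, -, -, -, -, -, b7⟩ := hB
  obtain ⟨h, hh, hev⟩ := hC M hM Wd hWd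
  -- the conditions
  have hcyl : ∀ (x : ℕ → Bool) (k : ℕ), 0 < mu ℕ (cyl x k) := by
    intro x k
    rw [b7]
    exact ENNReal.inv_pos.2 (ENNReal.pow_ne_top (by simp))
  have hWb : body Wd = Set.univ := by
    ext x
    simp only [body, Set.mem_ofPred_eq, Set.mem_univ, iff_true]
    exact fun n => (hWd' _).2 ⟨x, n, rfl⟩
  have hWP : Wd ∈ P M := by
    refine ⟨hWd, ⟨fun z hz => (hWd' z).1 hz, fun x n _ => (hWd' _).2 ⟨x, n, rfl⟩⟩, ?_⟩
    rw [hWb]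
    exact (hcyl r 0).trans_le (measure_mono (Set.subset_univ _))
  have hWT : Wd ∈ Th M r := ⟨hWP, by rw [hWb]; trivial⟩
  let S : ZFSet.{0} → ZFSet.{0} := fun x => ZFSet.sep (fun z => ¬ pair x (bz false) ∈ z) Wd
  have hS : DfnF M M (fun w : Fin 1 → ZFSet.{0} => S (w 0)) := by
    refine hM.sep' (F := fun _ : Fin 1 → ZFSet.{0} => Wd) (DfnF.const hWd)
      (Q := fun z v => ¬ pair (v 0) (bz false) ∈ z) ?_
    exact (Dfn.mem (hM.base.pair' (DfnF.proj 1) (DfnF.const (bM false))) (DfnF.proj 0)).not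
  have hSM : ∀ i, S (nat i) ∈ M := fun i => hS.1 (fun _ => nat i) fun _ => hM.nat_mem i
  have hSb : ∀ i x, x ∈ body (S (nat i)) ↔ x i = true := by
    intro i x
    simp only [body, Set.mem_ofPred_eq, S, ZFSet.mem_sep]
    constructor
    · intro h1
      by_contra h2
      have h3 : x i = false := by simpa using h2
      exact (h1 (i + 1)).2 ((w1 x (i + 1) i _).2 ⟨Nat.lt_succ_self i, by rw [h3]⟩)
    · intro h1 n
      refine ⟨(hWd' _).2 ⟨x, n, rfl⟩, fun h2 => ?_⟩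
      have h3 := ((w1 x n i _).1 h2).2
      rw [h1] at h3
      exact absurd (w5 h3) (by simp)
  have hSP : ∀ i, S (nat i) ∈ P M := by
    intro i
    refine ⟨hSM i, ⟨fun z hz => (hWd' z).1 (ZFSet.mem_sep.1 hz).1, fun x n hx => ?_⟩, ?_⟩
    · refine ZFSet.mem_sep.2 ⟨(hWd' _).2 ⟨x, n, rfl⟩, fun h1 => ?_⟩
      refine (ZFSet.mem_sep.1 hx).2 ?_
      have h2 := (w1 x n i _).1 h1
      exact (w1 x (n + 1) i _).2 ⟨Nat.lt_succ_of_lt h2.1, h2.2⟩
    · refine (hcyl (fun _ => true) (i + 1)).trans_le (measure_mono fun x hx => ?_)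
      exact (hSb i x).2 (hx i (Nat.lt_succ_self i))
  have hST : ∀ i, S (nat i) ∈ Th M r ↔ r i = true := fun i =>
    ⟨fun h1 => (hSb i r).1 h1.2, fun h1 => ⟨hSP i, (hSb i r).2 h1⟩⟩
  have hevn : ∀ i, ev (Th M r) (h (nat i)) = nat i := fun i => hev _ hWT _ (hM.nat_mem i)
  refine ⟨ev (Th M r) (im (fun x => pair (h x) (S x)) ZFSet.omega),
    ⟨_, hM.im_mem (h := fun x => pair (h x) (S x)) hM.infinity
      (hM.base.pair' (F := fun w : Fin 1 → ZFSet.{0} => h (w 0))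
        (G := fun w : Fin 1 → ZFSet.{0} => S (w 0)) hh hS), rfl⟩, fun i => ?_⟩
  rw [mem_ev, ← hST]
  constructor
  · rintro ⟨y, q, h1, h2, h3⟩
    obtain ⟨x, hx, h4⟩ := mem_im.1 h1
    obtain ⟨j, rfl⟩ := mem_omega_iff.1 hx
    obtain ⟨rfl, rfl⟩ := ZFSet.pair_inj.1 h4
    rw [hevn] at h3
    rw [← nat_injective h3]
    exact h2
  · intro h1
    exact ⟨h (nat i), S (nat i), mem_im.2 ⟨nat i, mem_omega_iff.2 ⟨i, rfl⟩, rfl⟩, h1, hevn i⟩

end H33.RF
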